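import Mathlib
import Pool.Agent.H34.Idio

namespace Pool.Agent.Results.MP_5a5b3b_co.Squares
open Pool.Agent.H34.TileDefs

/-- There is an isohedral tiling by closed disks in which the union of any two disjoint tiles is the
prototile of an isohedral tiling. -/
theorem result : ∃ 𝒯 : Set (Set P), IsTiling 𝒯 ∧ Isohedral 𝒯 ∧
    (∀ t ∈ 𝒯, Nonempty (t ≃ₜ Metric.closedBall (0 : P) 1)) ∧
    ∀ s ∈ 𝒯, ∀ t ∈ 𝒯, Disjoint s t →
      ∃ 𝒰, IsTiling 𝒰 ∧ Isohedral 𝒰 ∧ Monohedral 𝒰 (s ∪ t) :=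
  ⟨_, Pool.Agent.H34.Idio.grid_main⟩

end Pool.Agent.Results.MP_5a5b3b_co.Squares
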